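import Pool.Agent.ThP.Grn

/-!
Theorem N: blocks with small orbits whose canonical character extends.
-/

set_option autoImplicit false

namespace Pool.Agent.ThP

open Classical
open scoped Pointwise
open Pool.Agent.KB Pool.Agent.KB.ContrAux Pool.Agent.KBL Pool.Agent.KBZ Pool.Agent.KBU
  Pool.Agent.KBQ Pool.Agent.MSy Pool.Agent.BlkS Pool.Agent.PIs Pool.Agent.PIg Pool.Agent.Ity
  Pool.Agent.Isk Pool.Agent.BrZ Pool.Agent.Dih Pool.Agent.ETw

/-- `D` is generated by elements with at most three conjugates. -/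
theorem smg_all {G : Type} [Group G] [Fintype G] {p : ℕ} {𝔪 : Ideal AInt}
    {χ : G → ℂ} {D : Subgroup G} [Fintype (Subgroup.centralizer (D : Set G))]
    {ζ : Subgroup.centralizer (D : Set G) → ℂ} {D₀ E₀ : Type} [CommGroup D₀] [Fintype D₀]
    [Group E₀] [Fintype E₀] [MulDistribMulAction E₀ D₀]
    (A : BlkS.Dat G (Subgroup.centralizer (D : Set G)) D₀ E₀ p 𝔪 χ)
    (hδ : A.δ.range = D)
    (hι : A.ι = (Subgroup.centralizer (D : Set G)).subtype) (hζ' : A.ζ = ζ)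
    (hc : ∀ a b : E₀, a * b = b * a) (h3p : 3 < p)
    (hS : D ≤ Subgroup.closure {x | x ∈ D ∧
          Nat.card {y // ∃ g ∈ inertia 𝔪 D ζ, y = g * x * g⁻¹} ≤ 3} ∨
      ∀ g ∈ inertia 𝔪 D ζ, g ^ 3 ∈ Subgroup.centralizer (D : Set G)) :
    SmG D₀ E₀ := by
  have hmem := grl_mem A hδ hι hζ'
  rcases hS with h | h
  · show Subgroup.closure {x : D₀ | Nat.card E₀ ≤ 3 * Nat.card (EE E₀ (Subgroup.zpowers x))} = ⊤
    have h1 : Subgroup.closure {x | x ∈ D ∧
        Nat.card {y // ∃ g ∈ inertia 𝔪 D ζ, y = g * x * g⁻¹} ≤ 3} ≤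
        (Subgroup.closure {x : D₀ | Nat.card E₀ ≤
          3 * Nat.card (EE E₀ (Subgroup.zpowers x))}).map A.δ := by
      rw [Subgroup.closure_le]
      rintro x ⟨hxU, hx⟩
      obtain ⟨v, rfl⟩ := hδ.ge hxU
      refine ⟨v, Subgroup.subset_closure ?_, rfl⟩
      have h5 : Nat.card (MulAction.orbit E₀ v) ≤
          Nat.card {y // ∃ g ∈ inertia 𝔪 D ζ, y = g * A.δ v * g⁻¹} := by
        have hex : ∀ w : MulAction.orbit E₀ v,
            ∃ g ∈ inertia 𝔪 D ζ, A.δ (w : D₀) = g * A.δ v * g⁻¹ := by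
          rintro ⟨_, t, rfl⟩
          exact ⟨A.τ t, (hmem _).1 (A.tmem t), (A.tact t v).symm⟩
        refine Nat.card_le_card_of_injective (fun w => ⟨A.δ (w : D₀), hex w⟩) ?_
        intro w w' hww
        exact Subtype.ext (A.dinj (congrArg Subtype.val hww))
      have h6 := MulAction.card_orbit_mul_card_stabilizer_eq_card_group E₀ v
      have h7 : Nat.card (MulAction.stabilizer E₀ v) =
          Nat.card (EE E₀ (Subgroup.zpowers v)) := by
        refine Nat.card_congr (Equiv.subtypeEquivRight fun s => ?_)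
        rw [MulAction.mem_stabilizer_iff, MSz.mem_EE_zpowers]
      rw [← Nat.card_eq_fintype_card, ← Nat.card_eq_fintype_card,
        ← Nat.card_eq_fintype_card] at h6
      show Nat.card E₀ ≤ 3 * Nat.card (EE E₀ (Subgroup.zpowers v))
      rw [← h6, h7]
      exact Nat.mul_le_mul_right _ (h5.trans hx)
    rw [eq_top_iff]
    intro v _
    obtain ⟨w, hw, hwv⟩ := h1 (h (hδ.le ⟨v, rfl⟩))
    rw [← A.dinj hwv]
    exact hw
  · refine tq_gen A.hp A.sys.hD h3p hc (Or.inr fun t => ?_)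
    refine A.faith _ fun v => A.dinj ?_
    have h3 := h _ ((hmem _).1 (A.tmem t))
    have h4 := (Subgroup.mem_centralizer_iff.1 h3) _ (hδ.le ⟨v, rfl⟩)
    have h5 : A.δ ((t * t * t) • v) = A.τ t ^ 3 * A.δ v * (A.τ t ^ 3)⁻¹ := by
      rw [mul_smul, mul_smul, ← A.tact, ← A.tact, ← A.tact, pow_succ, pow_two]
      simp only [mul_inv_rev, mul_assoc]
    rw [h5, ← h4, mul_inv_cancel_right]

/-- `l(B) = e` if the canonical character extends, `n = 3`. -/
theorem ext_three (G : Type) [Group G] [Finite G] (p : ℕ) (hp : p.Prime)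
    (𝔪 : Ideal AInt)
    (h𝔪 : 𝔪.IsMaximal) (hp𝔪 : (p : AInt) ∈ 𝔪) (χ : G → ℂ) (hχ : χ ∈ Irr G)
    (D : Subgroup G) (hab : ∀ a ∈ D, ∀ b ∈ D, a * b = b * a)
    (hD : Nat.card D = p ^ defect p (block 𝔪 χ))
    (ζ : Subgroup.centralizer (D : Set G) → ℂ)
    (hζ : ζ ∈ Irr (Subgroup.centralizer (D : Set G)))
    (hind : Induces 𝔪 (Subgroup.centralizer (D : Set G)) ζ χ)
    (e : ℕ) (he : Nat.card (inertia 𝔪 D ζ) = e * Nat.card (Subgroup.centralizer (D : Set G)))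
    (h18 : 18 < p)
    (hcm : ∀ g ∈ inertia 𝔪 D ζ, ∀ h ∈ inertia 𝔪 D ζ,
        g * h * g⁻¹ * h⁻¹ ∈ Subgroup.centralizer (D : Set G))
    (hS : D ≤ Subgroup.closure {x | x ∈ D ∧
          Nat.card {y // ∃ g ∈ inertia 𝔪 D ζ, y = g * x * g⁻¹} ≤ 3} ∨
      ∀ g ∈ inertia 𝔪 D ζ, g ^ 3 ∈ Subgroup.centralizer (D : Set G))
    (hX : Eab.Extends 𝔪 D ζ) : ell p (block 𝔪 χ) = e := by
  have : Fintype G := Fintype.ofFinite G
  have : Fintype (Subgroup.centralizer (D : Set G)) := Fintype.ofFinite _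
  have : Fintype (Subgroup.normalizer (D : Set G)) := Fintype.ofFinite _
  have hA := Sub_AbD p 𝔪 χ hχ D hab hD ζ hζ hind
  obtain ⟨D₀, E₀, _, _, _, _, _, A, hδ, hι, hζ'⟩ := ex_dat p hp 𝔪 h𝔪 hp𝔪 χ hχ D
    (Subgroup.centralizer (D : Set G)).subtype ζ hA
  have hmem := grl_mem A hδ hι hζ'
  have hcC : Nat.card (inertia 𝔪 D ζ) =
      Nat.card (Subgroup.centralizer (D : Set G)) * Nat.card E₀ := by
    rw [← grl_all A]
    exact (Nat.card_congr (Equiv.subtypeEquivRight hmem)).symm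
  have hecard : Nat.card E₀ = e := by
    have h3 : e * Nat.card (Subgroup.centralizer (D : Set G)) =
        Nat.card E₀ * Nat.card (Subgroup.centralizer (D : Set G)) := by
      rw [← he, hcC, mul_comm]
    exact (Nat.eq_of_mul_eq_mul_right Nat.card_pos h3).symm
  have hc : ∀ a b : E₀, a * b = b * a := (grl_comm A hδ hι hζ').1 hcm
  have hsm : SmG D₀ E₀ := smg_all A hδ hι hζ' hc (by omega) hS
  have hl : Hn p D₀ E₀ := Hn.of_gen hp A.sys.hD A.sys.hE ⟨3, hc, by omega, hsm⟩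
  have F : Fam E₀ (fun _ : Unit => (⊤ : Subgroup D₀)) :=
    { st := fun _ _ _ _ => Subgroup.mem_top _
      gen := by rw [iSup_const, sup_top_eq]
      ind := fun _ t => ⟨t, fun _ _ => rfl, fun j hj => absurd (Subsingleton.elim _ _) hj⟩ }
  have hO : Oth E₀ (fun _ : Unit => (⊤ : Subgroup D₀)) () = ⊤ := by
    rw [eq_top_iff]
    intro t _
    exact mem_Oth.2 fun j hj => absurd (Subsingleton.elim _ _) hj
  have hex : Eab.Exd A := by
    subst hζ'
    exact ext_exd A hι hδ hmem hX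
  refine (core_main D hζ A hδ hι hζ' e hecard hc hl F (fun i => Or.inl ?_)
    (Or.inr (Or.inr (Or.inl hex)))).2.1 hex
  show Subgroup.closure {x : D₀ | Nat.card (Oth E₀ (fun _ : Unit => (⊤ : Subgroup D₀)) ()) ≤
    3 * Nat.card (EE (Oth E₀ (fun _ : Unit => (⊤ : Subgroup D₀)) ()) (Subgroup.zpowers x))} = ⊤
  rw [eq_top_iff]
  refine le_trans (show Subgroup.closure {x : D₀ | Nat.card E₀ ≤
    3 * Nat.card (EE E₀ (Subgroup.zpowers x))} = ⊤ from hsm).ge ?_
  refine Subgroup.closure_mono fun x hx => ?_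
  have h1 : Nat.card E₀ ≤ 3 * Nat.card (EE E₀ (Subgroup.zpowers x)) := hx
  show Nat.card (Oth E₀ (fun _ : Unit => (⊤ : Subgroup D₀)) ()) ≤
    3 * Nat.card (EE (Oth E₀ (fun _ : Unit => (⊤ : Subgroup D₀)) ()) (Subgroup.zpowers x))
  rw [hO, Subgroup.card_top]
  refine h1.trans (Nat.mul_le_mul_left 3 ?_)
  refine Nat.card_le_card_of_injective (fun t => ⟨⟨t.1, Subgroup.mem_top _⟩, t.2⟩) ?_
  intro s t h
  exact Subtype.ext (congrArg (fun z => z.1.1) h)

/-- The centralizer is contained in the inertial group. -/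
theorem cen_inertia {G : Type} [Group G] [Finite G] (𝔪 : Ideal AInt) (D : Subgroup G)
    (ζ : Subgroup.centralizer (D : Set G) → ℂ)
    (hζ : ζ ∈ Irr (Subgroup.centralizer (D : Set G))) {g : G}
    (hg : g ∈ Subgroup.centralizer (D : Set G)) : g ∈ inertia 𝔪 D ζ := by
  have : Fintype G := Fintype.ofFinite G
  have : Fintype (Subgroup.centralizer (D : Set G)) := Fintype.ofFinite _
  exact (Sub_mem 𝔪 D ζ g).2 (Abl_range 𝔪 D _ (Sub_cen D) ζ hζ ⟨⟨g, hg⟩, rfl⟩)

theorem card_cen {G : Type} [Group G] [Finite G] (𝔪 : Ideal AInt) (D : Subgroup G)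
    (ζ : Subgroup.centralizer (D : Set G) → ℂ)
    (hζ : ζ ∈ Irr (Subgroup.centralizer (D : Set G))) :
    Nat.card {g : G // g ∈ inertia 𝔪 D ζ ∧ g ∈ Subgroup.centralizer (D : Set G)} =
      Nat.card (Subgroup.centralizer (D : Set G)) :=
  Nat.card_congr (Equiv.subtypeEquivRight fun _ =>
    ⟨fun h => h.2, fun h => ⟨cen_inertia 𝔪 D ζ hζ h, h⟩⟩)

end Pool.Agent.ThP
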